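import Mathlib.Data.Finset.Card
import Mathlib.Data.Nat.Bitwise
import Mathlib.Algebra.BigOperators.Group.List.Basic

/-! The finite check of the star patterns. Slot `s < 12` is position `s % 3` of wire `s / 3`, wire
`0` is the centre; a state is the bit mask of the slots already passed. -/

namespace Pool.Agent.MP_081e4c_co.T4

def opts (b : Bool) : List ℕ := bif b then [0, 1, 3, 7] else [0]

def masks (l : List ℕ) (T : ℕ → Bool) : List ℕ :=
  l.flatMap fun a => (opts (T 1)).flatMap fun b => (opts (T 2)).flatMap fun c =>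
    (opts (T 3)).map fun d => a + 8 * b + 64 * c + 512 * d

def pairs (L : List ℕ) : ℕ := (L.map fun k => L.count k).sum

def ok (T : ℕ → Bool) (k v : ℕ) (p : ℕ → ℕ) : Bool :=
  (Nat.beq v k || (!Nat.beq (v / 3) (k / 3) && T (v / 3) && T (k / 3))) &&
  (Nat.ble 3 k || !T (k + 1) || (Nat.beq (v / 3) (k + 1) && (Nat.beq k 1 || Nat.beq (v % 3) 1))) &&
  (Nat.beq (k % 3) 0 || Nat.beq (p (k - 1)) (k - 1) || Nat.beq (p (k - 1) % 3) 2 ||
    !Nat.beq v (p (k - 1) + 1)) &&
  ((List.range k).all fun t => Nat.beq (p t) k == Nat.beq v t)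

def chk (T : ℕ → Bool) (B : ℕ) : ℕ → ℕ → (ℕ → ℕ) → ℕ → List ℕ → Bool
  | 0, _, _, E, L => Nat.ble (pairs (L.map fun a => a &&& E)) B
  | j + 1, k, p, E, L => (List.range 12).all fun v =>
    !(ok T k v p) ||
      chk T B j (k + 1) (fun t => bif Nat.beq t k then v else p t)
        (bif Nat.beq v k then E ||| 2 ^ k else E)
        (bif Nat.blt v k then L.filter fun a => a.testBit k == a.testBit v else L)

def pres (a b c : Bool) (i : ℕ) : Bool :=
  Nat.beq i 0 || (Nat.beq i 1 && a) || (Nat.beq i 2 && b) || (Nat.beq i 3 && c)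

def run (l : List ℕ) (a b c : Bool) (B : ℕ) : Bool :=
  chk (pres a b c) B 12 0 (fun _ => 0) 0 (masks l (pres a b c))

theorem c0 : run [0, 1, 3] false false false 3 = true := by decide +kernel
theorem c1 : run [0, 1, 3, 7] true false false 10 = true := by decide +kernel
theorem c2 : run [0, 1, 3, 7] false true false 10 = true := by decide +kernel
theorem c3 : run [0, 1, 3, 7] false false true 10 = true := by decide +kernel
theorem c4 : run [0, 1, 3, 7] true true false 31 = true := by decide +kernel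
theorem c5 : run [0, 1, 3, 7] true false true 31 = true := by decide +kernel
theorem c6 : run [0, 1, 3, 7] false true true 31 = true := by decide +kernel
theorem c7 : run [0, 1, 3, 7] true true true 100 = true := by decide +kernel

theorem card_le_pairs (f : ℕ → ℕ) (L : List ℕ) (Q : Finset (ℕ × ℕ))
    (h : ∀ x ∈ Q, x.1 ∈ L ∧ x.2 ∈ L ∧ f x.1 = f x.2) : Q.card ≤ pairs (L.map f) := by
  have h1 : Q ⊆ (L.flatMap fun a => (L.filter fun b => f b == f a).map fun b => (a, b)).toFinset := by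
    intro x hx
    obtain ⟨a1, a2, a3⟩ := h x hx
    rw [List.mem_toFinset, List.mem_flatMap]
    exact ⟨x.1, a1, List.mem_map.2 ⟨x.2, List.mem_filter.2 ⟨a2, by simp [a3]⟩, rfl⟩⟩
  refine ((Finset.card_le_card h1).trans (List.toFinset_card_le _)).trans_eq ?_
  rw [List.length_flatMap, pairs, List.map_map]
  congr 1
  refine List.map_congr_left fun a _ => ?_
  rw [List.length_map, Function.comp_apply, List.count_eq_countP, List.countP_map,
    List.countP_eq_length_filter]
  rfl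

theorem beq_false {a b : ℕ} (h : a ≠ b) : Nat.beq a b = false :=
  Bool.eq_false_iff.2 fun e => h (Nat.eq_of_beq_eq_true e)

theorem chk_sound {T : ℕ → Bool} {B : ℕ} {q : ℕ → ℕ} (h1 : ∀ s < 12, q s < 12)
    (h2 : ∀ k < 12, ∀ p : ℕ → ℕ, (∀ t < k, p t = q t) → ok T k (q k) p = true)
    (Q : Finset (ℕ × ℕ))
    (h3 : ∀ x ∈ Q, ∀ s < 12, x.1.testBit s = x.1.testBit (q s) ∧
      x.2.testBit s = x.2.testBit (q s) ∧ (q s = s → x.1.testBit s = x.2.testBit s)) :
    ∀ (j k : ℕ) (p : ℕ → ℕ) (E : ℕ) (L : List ℕ), j + k = 12 → (∀ t < k, p t = q t) →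
      (∀ s, E.testBit s = true → s < 12 ∧ q s = s) → (∀ x ∈ Q, x.1 ∈ L ∧ x.2 ∈ L) →
      chk T B j k p E L = true → Q.card ≤ B := by
  intro j
  induction j with
  | zero =>
    intro k p E L _ _ hE hL h
    refine (card_le_pairs (fun a => a &&& E) L Q fun x hx =>
      ⟨(hL x hx).1, (hL x hx).2, Nat.eq_of_testBit_eq fun s => ?_⟩).trans (Nat.le_of_ble_eq_true h)
    rw [Nat.testBit_and, Nat.testBit_and]
    cases hs : E.testBit s
    · simp
    · rw [(h3 x hx s (hE s hs).1).2.2 (hE s hs).2]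
  | succ j ih =>
    intro k p E L hk hp hE hL h
    have hk' : k < 12 := by omega
    have h4 := List.all_eq_true.1 h (q k) (List.mem_range.2 (h1 k hk'))
    rw [h2 k hk' p hp, Bool.not_true, Bool.false_or] at h4
    refine ih (k + 1) _ _ _ (by omega) (fun t ht => ?_) (fun s hs => ?_) (fun x hx => ?_) h4
    · by_cases e : t = k
      · subst e
        simp
      · rw [beq_false e]
        exact hp t (by omega)
    · by_cases e : q k = k
      · rw [e, Nat.beq_refl, cond_true, Nat.testBit_or, Bool.or_eq_true] at hs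
        rcases hs with hs | hs
        · exact hE s hs
        · rw [Nat.testBit_two_pow, decide_eq_true_eq] at hs
          exact hs ▸ ⟨hk', e⟩
      · rw [beq_false e, cond_false] at hs
        exact hE s hs
    · cases Nat.blt (q k) k
      · exact hL x hx
      · exact ⟨List.mem_filter.2 ⟨(hL x hx).1, by simp [(h3 x hx k hk').1]⟩,
          List.mem_filter.2 ⟨(hL x hx).2, by simp [(h3 x hx k hk').2.1]⟩⟩

/-- the mask of four positions -/
def enc (a b c d : ℕ) : ℕ := (2 ^ a - 1) + 8 * (2 ^ b - 1) + 64 * (2 ^ c - 1) + 512 * (2 ^ d - 1)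

theorem enc_bit' : ∀ a b c d : Fin 4, ∀ s : Fin 12, (enc a b c d).testBit s = decide
    (s % 3 < if s.1 / 3 = 0 then a.1 else if s.1 / 3 = 1 then b.1 else if s.1 / 3 = 2 then c.1
      else d.1) := by
  decide +kernel

theorem enc_bit (p : ℕ → ℕ) (h : ∀ i, p i < 4) {s : ℕ} (hs : s < 12) :
    (enc (p 0) (p 1) (p 2) (p 3)).testBit s = decide (s % 3 < p (s / 3)) := by
  refine (enc_bit' ⟨_, h 0⟩ ⟨_, h 1⟩ ⟨_, h 2⟩ ⟨_, h 3⟩ ⟨s, hs⟩).trans ?_
  have h1 : s / 3 = 0 ∨ s / 3 = 1 ∨ s / 3 = 2 ∨ s / 3 = 3 := by omega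
  rcases h1 with e | e | e | e <;> simp [e]

theorem mem_opts {b : Bool} {a : ℕ} (h : a < 4) (h' : b = false → a = 0) : 2 ^ a - 1 ∈ opts b := by
  cases b
  · rw [h' rfl]; decide
  · revert a; decide

theorem enc_mem {l : List ℕ} {T : ℕ → Bool} {a b c d : ℕ} (ha : 2 ^ a - 1 ∈ l)
    (hb : 2 ^ b - 1 ∈ opts (T 1)) (hc : 2 ^ c - 1 ∈ opts (T 2)) (hd : 2 ^ d - 1 ∈ opts (T 3)) :
    enc a b c d ∈ masks l T :=
  List.mem_flatMap.2 ⟨_, ha, List.mem_flatMap.2 ⟨_, hb, List.mem_flatMap.2 ⟨_, hc,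
    List.mem_map.2 ⟨_, hd, rfl⟩⟩⟩⟩

end Pool.Agent.MP_081e4c_co.T4
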