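import Pool.Agent.MP_081e4c_co.T4.Chk
import Pool.Agent.MP_081e4c_co.OC.Net

/-! Networks of gates on two wires, at most three gates on each wire: the bound for one star. -/

open Finset

namespace Pool.Agent.MP_081e4c_co.T4

open OC

noncomputable section

open Classical

variable {P : Type*} [Fintype P] [PartialOrder P] {n : ℕ}

def W (K : P → Finset (Fin n)) (m : Fin n) : Finset P := univ.filter fun r => m ∈ K r

structure Net (K : P → Finset (Fin n)) : Prop where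
  two : ∀ r, (K r).card = 2
  chain : ∀ m r s, m ∈ K r → m ∈ K s → r ≤ s ∨ s ≤ r
  deg : ∀ m, (W K m).card ≤ 3
  sep : ∀ r s m, r < s → K r = K s → m ∈ K r → (W K m).card = 3 →
    ∃ t, r < t ∧ t < s ∧ ¬ Disjoint (K t) (K r)

def Low (G X : Finset P) : Prop := ∀ r ∈ G, ∀ s ∈ X, r ≤ s → r ∈ X

/-- the gates that touch the class `c` -/
def Gt (K : P → Finset (Fin n)) (cl : Fin n → Fin n) (c : Fin n) : Finset P :=
  univ.filter fun r => ∃ z ∈ K r, cl z = c

/-- the gates between two classes -/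
def Ut (K : P → Finset (Fin n)) (cl : Fin n → Fin n) : Finset P :=
  univ.filter fun r => ∃ a ∈ K r, ∃ b ∈ K r, cl a ≠ cl b

def Qt (K : P → Finset (Fin n)) (cl : Fin n → Fin n) (c : Fin n) : Finset (Finset P × Finset P) :=
  ((Gt K cl c).powerset ×ˢ (Gt K cl c).powerset).filter fun x =>
    Low (Gt K cl c) x.1 ∧ Low (Gt K cl c) x.2 ∧ x.1 ∩ Ut K cl = x.2 ∩ Ut K cl

variable {K : P → Finset (Fin n)}

omit [PartialOrder P] in
theorem mem_W {m : Fin n} {r : P} : r ∈ W K m ↔ m ∈ K r := by simp [W]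

theorem Net.ch (H : Net K) (m : Fin n) : ∀ s ∈ W K m, ∀ t ∈ W K m, s ≤ t ∨ t ≤ s :=
  fun s hs t ht => H.chain m s t (mem_W.1 hs) (mem_W.1 ht)

omit [Fintype P] in
theorem idx_card {V : Finset P} {s : P} (hs : s ∈ V) : idx V s < V.card :=
  card_lt_card ⟨filter_subset _ _, fun hc => lt_irrefl _ (mem_filter.1 (hc hs)).2⟩

omit [Fintype P] in
theorem idx_surj {V : Finset P} (hV : ∀ s ∈ V, ∀ t ∈ V, s ≤ t ∨ t ≤ s) {j : ℕ} (hj : j < V.card) :
    ∃ s ∈ V, idx V s = j := by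
  have h1 : V.image (idx V) = range V.card := by
    refine eq_of_subset_of_card_le (fun i hi => ?_) ?_
    · obtain ⟨s, hs, rfl⟩ := mem_image.1 hi
      exact mem_range.2 (idx_card hs)
    · rw [card_range, card_image_of_injOn (idx_inj hV)]
  exact mem_image.1 (h1 ▸ mem_range.2 hj)

omit [Fintype P] in
theorem mem_iff_idx {V X : Finset P} (hV : ∀ s ∈ V, ∀ t ∈ V, s ≤ t ∨ t ≤ s) (hX : Low V X) {r : P}
    (hr : r ∈ V) : r ∈ X ↔ idx V r < (V.filter fun t => t ∈ X).card := by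
  refine ⟨fun h => card_lt_card ⟨fun t ht => ?_, fun hc => ?_⟩, fun h => by_contra fun hc => ?_⟩
  · obtain ⟨a, b⟩ := mem_filter.1 ht
    exact mem_filter.2 ⟨a, hX t a r h b.le⟩
  · exact lt_irrefl _ (mem_filter.1 (hc (mem_filter.2 ⟨hr, h⟩))).2
  · refine not_le.2 h (card_le_card fun t ht => ?_)
    obtain ⟨a, b⟩ := mem_filter.1 ht
    refine mem_filter.2 ⟨a, ?_⟩
    rcases hV t a r hr with e | e
    · exact lt_of_le_of_ne e fun e' => hc (e' ▸ b)
    · exact absurd (hX r hr t b e) hc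

theorem third {α : Type*} {S : Finset α} (h : S.card = 2) {a b c : α} (ha : a ∈ S) (hb : b ∈ S)
    (hc : c ∈ S) (ab : a ≠ b) (ac : a ≠ c) : b = c := by
  by_contra bc
  have := two_lt_card_iff.2 ⟨a, b, c, ha, hb, hc, ab, ac, bc⟩
  omega

theorem frame (H : Net K) (cl : Fin n → Fin n) (c : Fin n) (pr : ℕ → Prop) (w : ℕ → Fin n)
    (p0 : pr 0) (w0 : w 0 = c) (wcl : ∀ i, cl (w i) = c)
    (surj : ∀ z, cl z = c → ∃ i < 4, pr i ∧ w i = z)
    (inj : ∀ i j, pr i → pr j → w i = w j → i = j)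
    (star : ∀ j, pr (j + 1) → (W K (w (j + 1))).card = 3 ∧ ∃ r, w (j + 1) ∈ K r ∧ c ∈ K r ∧
      idx (W K c) r = j ∧ (idx (W K (w (j + 1))) r = 1 ∨ j = 1))
    (l : List ℕ) (B : ℕ) (hl : ∀ a ≤ (W K c).card, 2 ^ a - 1 ∈ l)
    (hr : run l (decide (pr 1)) (decide (pr 2)) (decide (pr 3)) B = true) :
    (Qt K cl c).card ≤ B := by
  have hT : ∀ i < 4, pres (decide (pr 1)) (decide (pr 2)) (decide (pr 3)) i = true ↔ pr i := by
    intro i hi
    have h1 : i = 0 ∨ i = 1 ∨ i = 2 ∨ i = 3 := by omega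
    rcases h1 with rfl | rfl | rfl | rfl <;> simp [pres, p0]
  let At : ℕ → P → Prop := fun s r =>
    pr (s / 3) ∧ w (s / 3) ∈ K r ∧ idx (W K (w (s / 3))) r = s % 3
  have mk : ∀ i r, pr i → w i ∈ K r → At (3 * i + idx (W K (w i)) r) r ∧
      (3 * i + idx (W K (w i)) r) / 3 = i ∧
      (3 * i + idx (W K (w i)) r) % 3 = idx (W K (w i)) r := by
    intro i r a b
    have h1 := (idx_card (mem_W.2 b)).trans_le (H.deg _)
    have h2 : (3 * i + idx (W K (w i)) r) / 3 = i := by omega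
    refine ⟨?_, h2, by omega⟩
    simp only [At, h2]
    exact ⟨a, b, by omega⟩
  have uniq : ∀ s r r', At s r → At s r' → r = r' := fun s r r' a b =>
    idx_inj (H.ch _) (mem_W.2 a.2.1) (mem_W.2 b.2.1) (a.2.2.trans b.2.2.symm)
  have same : ∀ s t r, At s r → At t r → w (s / 3) = w (t / 3) → s = t := by
    intro s t r a b e
    have h1 := inj _ _ a.1 b.1 e
    have h2 := a.2.2
    rw [e, b.2.2] at h2
    omega
  let q : ℕ → ℕ := fun s => if h : ∃ t, t < 12 ∧ t ≠ s ∧ ∃ r, At s r ∧ At t r then h.choose else s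
  have q1 : ∀ s, q s ≠ s → q s < 12 ∧ ∃ r, At s r ∧ At (q s) r := by
    intro s hs
    by_cases h : ∃ t, t < 12 ∧ t ≠ s ∧ ∃ r, At s r ∧ At t r
    · have e : q s = h.choose := dif_pos h
      exact e ▸ ⟨h.choose_spec.1, h.choose_spec.2.2⟩
    · exact absurd (dif_neg h) hs
  have q2 : ∀ s t r, t < 12 → t ≠ s → At s r → At t r → q s = t := by
    intro s t r a b c d
    have h : ∃ t, t < 12 ∧ t ≠ s ∧ ∃ r, At s r ∧ At t r := ⟨t, a, b, r, c, d⟩
    have e : q s = h.choose := dif_pos h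
    obtain ⟨-, h2, r', h3, h4⟩ := h.choose_spec
    rw [uniq s r' r h3 c] at h4
    rw [e]
    exact same _ _ r h4 d (third (H.two r) c.2.1 h4.2.1 d.2.1
      (fun e => h2 (same _ _ r c h4 e).symm) fun e => b (same _ _ r c d e).symm)
  have hok : ∀ k < 12, ∀ p : ℕ → ℕ, (∀ t < k, p t = q t) →
      ok (pres (decide (pr 1)) (decide (pr 2)) (decide (pr 3))) k (q k) p = true := by
    intro k hk p hp
    simp only [ok, Bool.and_eq_true, Bool.or_eq_true, Nat.beq_eq, Bool.not_eq_true', Nat.ble_eq,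
      List.all_eq_true, List.mem_range, beq_iff_eq]
    refine ⟨⟨⟨?_, ?_⟩, ?_⟩, fun t ht => ?_⟩
    · by_cases e : q k = k
      · exact Or.inl e
      · obtain ⟨a, r, b, d⟩ := q1 k e
        refine Or.inr ⟨⟨beq_false fun h => e (same _ _ r d b (by rw [h])),
          (hT _ (by omega)).2 d.1⟩, (hT _ (by omega)).2 b.1⟩
    · by_cases e : 3 ≤ k
      · exact Or.inl (Or.inl e)
      · by_cases e' : pr (k + 1)
        · obtain ⟨-, r, a1, a2, a3, a4⟩ := star k e'
          obtain ⟨b1, b2, b3⟩ := mk _ r e' a1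
          have b4 : At k r := by
            simp only [At, show k / 3 = 0 by omega, w0]
            exact ⟨p0, a2, by omega⟩
          rw [q2 k _ r (by omega) (by omega) b4 b1]
          exact Or.inr ⟨b2, by omega⟩
        · exact Or.inl (Or.inr (Bool.eq_false_iff.2 fun h => e' ((hT _ (by omega)).1 h)))
    · by_cases e1 : k % 3 = 0
      · exact Or.inl (Or.inl (Or.inl e1))
      rw [hp (k - 1) (by omega)]
      by_cases e2 : q (k - 1) = k - 1
      · exact Or.inl (Or.inl (Or.inr e2))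
      by_cases e3 : q (k - 1) % 3 = 2
      · exact Or.inl (Or.inr e3)
      refine Or.inr (beq_false fun e4 => ?_)
      obtain ⟨-, r, a1, a2⟩ := q1 _ e2
      obtain ⟨-, s, b1, b2⟩ := q1 k (by omega)
      have ne : w ((k - 1) / 3) ≠ w (q (k - 1) / 3) := fun e => e2 (same _ _ r a1 a2 e).symm
      obtain ⟨a3, a4, a5⟩ := a1
      obtain ⟨a6, a7, a8⟩ := a2
      obtain ⟨-, b4, b5⟩ := b1
      obtain ⟨-, b7, b8⟩ := b2
      rw [show k / 3 = (k - 1) / 3 by omega] at b4 b5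
      rw [show q k / 3 = q (k - 1) / 3 by omega] at b7 b8
      have rs : r < s := by
        rcases H.chain _ r s a4 b4 with h | h
        · exact lt_of_le_of_ne h fun e => by rw [e] at a5; omega
        · rcases h.eq_or_lt with e | e
          · rw [e] at b5; omega
          · have := idx_lt (mem_W.2 b4) e
            omega
      have two : ∀ u, w ((k - 1) / 3) ∈ K u → w (q (k - 1) / 3) ∈ K u →
          K u = {w ((k - 1) / 3), w (q (k - 1) / 3)} := fun u c d =>
        (eq_of_subset_of_card_le (insert_subset c (singleton_subset_iff.2 d))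
          (by rw [H.two, card_pair ne])).symm
      have full : ∃ m ∈ K r, (W K m).card = 3 := by
        rcases Nat.eq_zero_or_pos ((k - 1) / 3) with h | h
        · obtain ⟨j, hj⟩ : ∃ j, q (k - 1) / 3 = j + 1 :=
            Nat.exists_eq_succ_of_ne_zero fun h' => ne (by rw [h, h'])
          exact ⟨_, a7, by rw [hj] at a6 ⊢; exact (star j a6).1⟩
        · obtain ⟨j, hj⟩ : ∃ j, (k - 1) / 3 = j + 1 := Nat.exists_eq_succ_of_ne_zero h.ne'
          exact ⟨_, a4, by rw [hj] at a3 ⊢; exact (star j a3).1⟩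
      obtain ⟨m, m1, m2⟩ := full
      obtain ⟨t, t1, t2, t3⟩ := H.sep r s m rs ((two r a4 a7).trans (two s b4 b7).symm) m1 m2
      obtain ⟨x, x1, x2⟩ := not_disjoint_iff.1 t3
      rw [two r a4 a7, mem_insert, mem_singleton] at x2
      rcases x2 with rfl | rfl
      · have c1 := idx_lt (mem_W.2 a4) t1
        have c2 := idx_lt (mem_W.2 x1) t2
        omega
      · have c1 := idx_lt (mem_W.2 a7) t1
        have c2 := idx_lt (mem_W.2 x1) t2
        omega
    · rw [hp t ht, Bool.eq_iff_iff, Nat.beq_eq, Nat.beq_eq]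
      refine ⟨fun e => ?_, fun e => ?_⟩
      · obtain ⟨-, r, a, b⟩ := q1 t (by omega)
        exact q2 k t r (by omega) (by omega) (e ▸ b) a
      · obtain ⟨-, r, a, b⟩ := q1 k (by omega)
        exact q2 t k r hk (by omega) (e ▸ b) a
  let pos : Finset P → ℕ → ℕ := fun X i =>
    if pr i then ((W K (w i)).filter fun t => t ∈ X).card else 0
  have pos4 : ∀ X i, pos X i < 4 := by
    intro X i
    have := (card_filter_le (W K (w i)) fun t => t ∈ X).trans (H.deg _)
    simp only [pos]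
    split_ifs <;> omega
  let e : Finset P → ℕ := fun X => enc (pos X 0) (pos X 1) (pos X 2) (pos X 3)
  have bit : ∀ X, Low (Gt K cl c) X → ∀ s < 12, (e X).testBit s = true ↔ ∃ r, At s r ∧ r ∈ X := by
    intro X hX s hs
    have hL : Low (W K (w (s / 3))) X := fun r hr =>
      hX r (mem_filter.2 ⟨mem_univ _, _, mem_W.1 hr, wcl _⟩)
    rw [enc_bit (pos X) (pos4 X) hs, decide_eq_true_eq]
    refine ⟨fun h => ?_, fun ⟨r, a, b⟩ => ?_⟩
    · by_cases h' : pr (s / 3)
      · simp only [pos, if_pos h'] at h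
        obtain ⟨r, a, b⟩ := idx_surj (H.ch _) (h.trans_le (card_filter_le _ _))
        exact ⟨r, ⟨h', mem_W.1 a, b⟩, (mem_iff_idx (H.ch _) hL a).2 (b ▸ h)⟩
      · simp only [pos, if_neg h'] at h
        omega
    · simp only [pos, if_pos a.1]
      exact a.2.2 ▸ (mem_iff_idx (H.ch _) hL (mem_W.2 a.2.1)).1 b
  have slot : ∀ r z, z ∈ K r → cl z = c → ∃ s < 12, At s r ∧ w (s / 3) = z := by
    intro r z a b
    obtain ⟨i, i1, i2, rfl⟩ := surj z b
    obtain ⟨c1, c2, c3⟩ := mk i r i2 a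
    exact ⟨_, by omega, c1, by rw [c2]⟩
  have einj : ∀ X ⊆ Gt K cl c, ∀ Y, Low (Gt K cl c) X → Low (Gt K cl c) Y → e X = e Y → X ⊆ Y := by
    intro X a Y b d h r hr
    obtain ⟨z, z1, z2⟩ := (mem_filter.1 (a hr)).2
    obtain ⟨s, s1, s2, -⟩ := slot r z z1 z2
    obtain ⟨r', c1, c2⟩ := (bit Y d s s1).1 (h ▸ (bit X b s s1).2 ⟨r, s2, hr⟩)
    exact uniq s r' r c1 s2 ▸ c2
  have cons : ∀ X, Low (Gt K cl c) X → ∀ s < 12, (e X).testBit s = (e X).testBit (q s) := by
    intro X hX s hs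
    by_cases h : q s = s
    · rw [h]
    · obtain ⟨a, r, b, d⟩ := q1 s h
      rw [Bool.eq_iff_iff, bit X hX s hs, bit X hX _ a]
      exact ⟨fun ⟨u, u1, u2⟩ => ⟨r, d, uniq _ u r u1 b ▸ u2⟩,
        fun ⟨u, u1, u2⟩ => ⟨r, b, uniq _ u r u1 d ▸ u2⟩⟩
  have ext : ∀ s r, q s = s → At s r → r ∈ Ut K cl := by
    intro s r a b
    obtain ⟨z, z1, z2⟩ := exists_mem_ne (by rw [H.two r]; decide : 1 < (K r).card) (w (s / 3))
    refine mem_filter.2 ⟨mem_univ _, z, z1, _, b.2.1, fun h => ?_⟩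
    obtain ⟨t, t1, t2, t3⟩ := slot r z z1 (h.trans (wcl _))
    have t4 : t ≠ s := fun h' => z2 (by rw [← t3, h'])
    exact t4 ((q2 s t r t1 t4 b t2).symm.trans a)
  have emem : ∀ X, e X ∈ masks l (pres (decide (pr 1)) (decide (pr 2)) (decide (pr 3))) := by
    intro X
    have h : ∀ i < 4, 2 ^ pos X i - 1 ∈
        opts (pres (decide (pr 1)) (decide (pr 2)) (decide (pr 3)) i) := fun i hi =>
      mem_opts (pos4 X i) fun h => if_neg fun h' => by rw [(hT i hi).2 h'] at h; cases h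
    refine enc_mem (hl _ ?_) (h 1 (by omega)) (h 2 (by omega)) (h 3 (by omega))
    simp only [pos, if_pos p0, w0]
    exact card_filter_le _ _
  have hinj : Set.InjOn (fun x : Finset P × Finset P => (e x.1, e x.2)) (Qt K cl c) := by
    intro x hx y hy h
    obtain ⟨a1, a2, a3, -⟩ := mem_filter.1 (mem_coe.1 hx)
    obtain ⟨b1, b2, b3, -⟩ := mem_filter.1 (mem_coe.1 hy)
    simp only [mem_product, mem_powerset] at a1 b1
    obtain ⟨h1, h2⟩ := Prod.mk.inj h
    exact Prod.ext (Subset.antisymm (einj _ a1.1 _ a2 b2 h1) (einj _ b1.1 _ b2 a2 h1.symm))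
      (Subset.antisymm (einj _ a1.2 _ a3 b3 h2) (einj _ b1.2 _ b3 a3 h2.symm))
  rw [← card_image_of_injOn hinj]
  refine chk_sound (q := q) (fun s hs => ?_) hok _ (fun x hx s hs => ?_) 12 0 _ 0 _ rfl
    (fun t ht => absurd ht (Nat.not_lt_zero t)) (fun s hs => by simp at hs) (fun x hx => ?_) hr
  · by_cases h : q s = s
    · rwa [h]
    · exact (q1 s h).1
  · obtain ⟨y, hy, rfl⟩ := mem_image.1 hx
    obtain ⟨-, a2, a3, a4⟩ := mem_filter.1 hy
    refine ⟨cons _ a2 s hs, cons _ a3 s hs, fun h => ?_⟩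
    rw [Bool.eq_iff_iff, bit _ a2 s hs, bit _ a3 s hs]
    exact ⟨fun ⟨r, b, d⟩ => ⟨r, b, (mem_inter.1 (a4 ▸ mem_inter.2 ⟨d, ext s r h b⟩)).1⟩,
      fun ⟨r, b, d⟩ => ⟨r, b, (mem_inter.1 (a4.symm ▸ mem_inter.2 ⟨d, ext s r h b⟩)).1⟩⟩
  · obtain ⟨y, -, rfl⟩ := mem_image.1 hx
    exact ⟨emem _, emem _⟩

end

end Pool.Agent.MP_081e4c_co.T4
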