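import Mathlib.Analysis.Real.Sqrt
import Mathlib.Algebra.BigOperators.Ring.Finset
import Mathlib.Algebra.Order.BigOperators.Ring.Finset
import Mathlib.Data.Fintype.Powerset
import Mathlib.Data.Finset.Max
import Mathlib.Algebra.BigOperators.Group.Finset.Powerset
import Mathlib.Tactic.Linarith
import Mathlib.Tactic.Positivity

/-! Finner's inequality with exponent two, and partitions into stars. -/

open Finset

namespace Pool.Agent.MP_081e4c_co.T4

theorem cs {u1 u2 v1 v2 R : ℝ} (h1 : 0 ≤ u1) (h2 : 0 ≤ u2) (h3 : 0 ≤ v1) (h4 : 0 ≤ v2)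
    (h5 : 0 ≤ R) : √(u1 * (v1 * R)) + √(u2 * (v2 * R)) ≤ √((u1 + u2) * ((v1 + v2) * R)) := by
  rw [Real.sqrt_mul h1, Real.sqrt_mul h2, Real.sqrt_mul h3, Real.sqrt_mul h4]
  refine Real.le_sqrt_of_sq_le ?_
  have e1 := Real.sq_sqrt h1
  have e2 := Real.sq_sqrt h2
  have e3 := Real.sq_sqrt h3
  have e4 := Real.sq_sqrt h4
  have e5 := Real.sq_sqrt h5
  generalize √u1 = x1, √u2 = x2, √v1 = y1, √v2 = y2, √R = r at *
  subst e1 e2 e3 e4 e5
  nlinarith [mul_nonneg (sq_nonneg r) (sq_nonneg (x1 * y2 - x2 * y1))]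

theorem finner {ι κ : Type*} [DecidableEq ι] [Fintype κ] [DecidableEq κ] (G : κ → Finset ι)
    (S : Finset ι) : (∀ i ∈ S, ∃ a b, a ≠ b ∧ ∀ k, i ∈ G k ↔ k = a ∨ k = b) →
      ∀ Q : κ → Finset ι → ℝ, (∀ k A, 0 ≤ Q k A) → (∀ k i A, i ∉ G k → Q k (insert i A) = Q k A) →
        ∑ A ∈ S.powerset, √(∏ k, Q k A) ≤ √(∏ k, ∑ A ∈ (S ∩ G k).powerset, Q k A) := by
  induction S using Finset.induction_on with
  | empty => intro _ Q _ _; simp
  | insert i S hi ih =>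
    intro h Q h0 hQ
    obtain ⟨a, b, hab, hG⟩ := h i (mem_insert_self _ _)
    have h1 := ih (fun j hj => h j (mem_insert_of_mem hj))
      (fun k A => if i ∈ G k then Q k A + Q k (insert i A) else Q k A)
      (fun k A => by
        split_ifs
        · exact add_nonneg (h0 _ _) (h0 _ _)
        · exact h0 _ _)
      (fun k j A hj => by simp only [insert_comm i j, hQ k j _ hj])
    rw [sum_powerset_insert hi, ← sum_add_distrib]
    refine le_trans (sum_le_sum fun A _ => ?_) (h1.trans_eq ?_)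
    · have hb : b ∈ univ.erase a := mem_erase.2 ⟨hab.symm, mem_univ _⟩
      have hn : ∀ k ∈ (univ.erase a).erase b, i ∉ G k := fun k hk h =>
        ((hG k).1 h).elim (mem_erase.1 (mem_erase.1 hk).2).1 (mem_erase.1 hk).1
      rw [← mul_prod_erase _ _ (mem_univ a), ← mul_prod_erase _ _ hb,
        ← mul_prod_erase _ _ (mem_univ a), ← mul_prod_erase _ _ hb,
        ← mul_prod_erase _ _ (mem_univ a), ← mul_prod_erase _ _ hb,
        if_pos ((hG a).2 (Or.inl rfl)), if_pos ((hG b).2 (Or.inr rfl)),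
        prod_congr rfl fun k hk => hQ k i A (hn k hk), prod_congr rfl fun k hk => if_neg (hn k hk)]
      exact cs (h0 _ _) (h0 _ _) (h0 _ _) (h0 _ _) (prod_nonneg fun k _ => h0 _ _)
    · congr 1
      refine prod_congr rfl fun k _ => ?_
      by_cases hk : i ∈ G k
      · simp only [if_pos hk]
        rw [insert_inter_of_mem hk, sum_powerset_insert fun h => hi (mem_inter.1 h).1,
          sum_add_distrib]
      · simp only [if_neg hk]
        rw [insert_inter_of_notMem hk]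

open Classical in
theorem stars {α : Type*} [Fintype α] (Fu : α → Prop) (f : α → α) (hf : ∀ m, Fu m → f m ≠ m) :
    ∃ cl : α → α, (∀ m, cl (cl m) = cl m) ∧
      (∀ m, cl m ≠ m → Fu m ∧ (f m = cl m ∨ (Fu (cl m) ∧ f (cl m) = m))) ∧
      ∀ c, Fu c → cl c = c → ∃ m, m ≠ c ∧ cl m = c := by
  obtain ⟨F, hF, hmin⟩ := exists_min_image (univ.filter fun F : Finset α =>
    (∀ m ∈ F, Fu m) ∧ ∀ m, Fu m → m ∈ F ∨ ∃ u ∈ F, f u = m) card
      ⟨univ.filter Fu, mem_filter.2 ⟨mem_univ _, fun m h => (mem_filter.1 h).2,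
        fun m h => Or.inl (mem_filter.2 ⟨mem_univ _, h⟩)⟩⟩
  obtain ⟨h1, h2⟩ := (mem_filter.1 hF).2
  have hM : ∀ w ∈ F, (∃ u ∈ F, f u = w) → Fu (f w) ∧ f w ∉ F ∧ ∀ u ∈ F, f u = f w → u = w := by
    rintro w hw ⟨u, hu, e⟩
    have h3 : ¬ ∀ m, Fu m → m ∈ F.erase w ∨ ∃ u ∈ F.erase w, f u = m := fun h =>
      not_lt.2 (hmin (F.erase w) (mem_filter.2 ⟨mem_univ _,
        fun m hm => h1 m (mem_of_mem_erase hm), h⟩)) (card_erase_lt_of_mem hw)
    push Not at h3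
    obtain ⟨z, z1, z2, z3⟩ := h3
    have z4 : z ≠ w := fun h => z3 u (mem_erase.2 ⟨fun h' => hf u (h1 u hu) (e.trans h'.symm), hu⟩)
      (e.trans h.symm)
    have z5 : z ∉ F := fun h => z2 (mem_erase.2 ⟨z4, h⟩)
    have z6 : ∀ x ∈ F, f x = z → x = w := fun x hx h =>
      by_contra fun hne => z3 x (mem_erase.2 ⟨hne, hx⟩) h
    obtain ⟨x, hx, e'⟩ := (h2 z z1).resolve_left z5
    rw [z6 x hx e'] at e'
    rw [e']
    exact ⟨z1, z5, z6⟩
  let cl : α → α := fun m => if m ∈ F then (if ∃ u ∈ F, f u = m then m else f m) else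
    if h : ∃ u ∈ F, f u = m ∧ ∃ x ∈ F, f x = u then h.choose else m
  have c1 : ∀ m ∈ F, (∃ u ∈ F, f u = m) → cl m = m := fun m a b => (if_pos a).trans (if_pos b)
  have c2 : ∀ m ∈ F, (¬ ∃ u ∈ F, f u = m) → cl m = f m := fun m a b => (if_pos a).trans (if_neg b)
  have c3 : ∀ u ∈ F, (∃ x ∈ F, f x = u) → cl (f u) = u := by
    intro u a b
    have h : ∃ y ∈ F, f y = f u ∧ ∃ x ∈ F, f x = y := ⟨u, a, rfl, b⟩
    exact ((if_neg (hM u a b).2.1).trans (dif_pos h)).trans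
      ((hM u a b).2.2 _ h.choose_spec.1 h.choose_spec.2.1)
  have c4 : ∀ m ∉ F, (¬ ∃ u ∈ F, f u = m ∧ ∃ x ∈ F, f x = u) → cl m = m := fun m a b =>
    (if_neg a).trans (dif_neg b)
  refine ⟨cl, fun m => ?_, fun m hm => ?_, fun c a b => ?_⟩
  · by_cases a : m ∈ F
    · by_cases b : ∃ u ∈ F, f u = m
      · rw [c1 m a b, c1 m a b]
      · rw [c2 m a b]
        by_cases c : f m ∈ F
        · exact c1 _ c ⟨m, a, rfl⟩
        · refine c4 _ c fun ⟨u, u1, u2, u3⟩ => b ?_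
          rwa [(hM u u1 u3).2.2 m a u2.symm]
    · by_cases b : ∃ u ∈ F, f u = m ∧ ∃ x ∈ F, f x = u
      · obtain ⟨u, u1, rfl, u3⟩ := b
        rw [c3 u u1 u3, c1 u u1 u3]
      · rw [c4 m a b, c4 m a b]
  · by_cases a : m ∈ F
    · by_cases b : ∃ u ∈ F, f u = m
      · exact absurd (c1 m a b) hm
      · exact ⟨h1 m a, Or.inl (c2 m a b).symm⟩
    · by_cases b : ∃ u ∈ F, f u = m ∧ ∃ x ∈ F, f x = u
      · obtain ⟨u, u1, rfl, u3⟩ := b
        rw [c3 u u1 u3]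
        exact ⟨(hM u u1 u3).1, Or.inr ⟨h1 u u1, rfl⟩⟩
      · exact absurd (c4 m a b) hm
  · by_cases d : c ∈ F
    · by_cases e : ∃ u ∈ F, f u = c
      · exact ⟨f c, hf c a, c3 c d e⟩
      · exact absurd ((c2 c d e).symm.trans b) (hf c a)
    · obtain ⟨u, u1, rfl⟩ := (h2 c a).resolve_left d
      have u2 : u ≠ f u := (hf u (h1 u u1)).symm
      by_cases e : ∃ x ∈ F, f x = u
      · exact absurd ((c3 u u1 e).symm.trans b) u2
      · exact ⟨u, u2, c2 u u1 e⟩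

end Pool.Agent.MP_081e4c_co.T4
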