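import Pool.Agent.MP_081e4c_co.T4.Clu
import Pool.Agent.MP_081e4c_co.T4.Fr
import Mathlib.Data.Fintype.BigOperators

/-! The number of lower sets of a network with at most three gates on each wire. -/

open Finset

namespace Pool.Agent.MP_081e4c_co.T4

open OC

noncomputable section

open Classical

variable {P : Type*} [Fintype P] [PartialOrder P] {n : ℕ} {K : P → Finset (Fin n)}

theorem cluster (H : Net K) (cl : Fin n → Fin n) (c : Fin n) (hc : cl c = c)
    (hs : (W K c).card = 3 → ∃ z, z ≠ c ∧ cl z = c)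
    (hz : ∀ z, cl z = c → z ≠ c → (W K z).card = 3 ∧ ∃ r, z ∈ K r ∧ c ∈ K r ∧
      (idx (W K z) r = 1 ∨ idx (W K c) r = 1)) :
    (Qt K cl c).card ^ 2 ≤ 10 ^ (univ.filter fun z => cl z = c).card := by
  have ex : ∀ z, ∃ j, cl z = c → z ≠ c → ∃ r, z ∈ K r ∧ c ∈ K r ∧ idx (W K c) r = j ∧
      (idx (W K z) r = 1 ∨ j = 1) := by
    intro z
    by_cases h : cl z = c ∧ z ≠ c
    · obtain ⟨-, r, a, b, d⟩ := hz z h.1 h.2
      exact ⟨_, fun _ _ => ⟨r, a, b, rfl, d⟩⟩
    · exact ⟨0, fun a b => absurd ⟨a, b⟩ h⟩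
  choose ix hix using ex
  obtain ⟨pr, hpr⟩ : ∃ pr : ℕ → Prop, ∀ i, pr i ↔ i = 0 ∨ ∃ z, cl z = c ∧ z ≠ c ∧ ix z + 1 = i :=
    ⟨_, fun _ => Iff.rfl⟩
  have p0 : pr 0 := (hpr 0).2 (Or.inl rfl)
  let w : ℕ → Fin n := fun i => if h : ∃ z, cl z = c ∧ z ≠ c ∧ ix z + 1 = i then h.choose else c
  have w0 : w 0 = c := dif_neg fun ⟨_, _, _, h⟩ => Nat.succ_ne_zero _ h
  have w1 : ∀ j, pr (j + 1) → cl (w (j + 1)) = c ∧ w (j + 1) ≠ c ∧ ix (w (j + 1)) = j := by
    intro j h
    have h1 := ((hpr _).1 h).resolve_left (Nat.succ_ne_zero j)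
    have e : w (j + 1) = h1.choose := dif_pos h1
    exact e ▸ ⟨h1.choose_spec.1, h1.choose_spec.2.1, Nat.succ_injective h1.choose_spec.2.2⟩
  have wcl : ∀ i, cl (w i) = c := by
    intro i
    by_cases h : ∃ z, cl z = c ∧ z ≠ c ∧ ix z + 1 = i
    · exact (congrArg cl (dif_pos h)).trans h.choose_spec.1
    · exact (congrArg cl (dif_neg h)).trans hc
  have surj : ∀ z, cl z = c → ∃ i < 4, pr i ∧ w i = z := by
    intro z h
    by_cases e : z = c
    · exact ⟨0, by omega, p0, w0.trans e.symm⟩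
    · have h1 : pr (ix z + 1) := (hpr _).2 (Or.inr ⟨z, h, e, rfl⟩)
      obtain ⟨a1, a2, a3⟩ := w1 _ h1
      obtain ⟨r, b1, b2, b3, -⟩ := hix z h e
      obtain ⟨s, d1, d2, d3, -⟩ := hix _ a1 a2
      have h2 := (idx_card (mem_W.2 b2)).trans_le (H.deg _)
      have h3 : s = r := idx_inj (H.ch c) (mem_W.2 d2) (mem_W.2 b2) (by rw [d3, a3, b3])
      exact ⟨_, by omega, h1, third (H.two r) b2 (h3 ▸ d1) b1 a2.symm (Ne.symm e)⟩
  have inj : ∀ i j, pr i → pr j → w i = w j → i = j := by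
    rintro (_ | i) (_ | j) a b e
    · rfl
    · exact absurd (e.symm.trans w0) (w1 j b).2.1
    · exact absurd (e.trans w0) (w1 i a).2.1
    · rw [← (w1 i a).2.2, e, (w1 j b).2.2]
  have star : ∀ j, pr (j + 1) → (W K (w (j + 1))).card = 3 ∧ ∃ r, w (j + 1) ∈ K r ∧ c ∈ K r ∧
      idx (W K c) r = j ∧ (idx (W K (w (j + 1))) r = 1 ∨ j = 1) := by
    intro j h
    obtain ⟨a1, a2, a3⟩ := w1 j h
    have h1 := hix _ a1 a2
    rw [a3] at h1
    exact ⟨(hz _ a1 a2).1, h1⟩
  have F := frame H cl c pr w p0 w0 wcl surj inj star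
  have size : ((range 4).filter pr).card ≤ (univ.filter fun z => cl z = c).card :=
    card_le_card_of_injOn w (fun i _ => mem_coe.2 (mem_filter.2 ⟨mem_univ _, wcl i⟩))
      fun i a j b => inj i j (mem_filter.1 (mem_coe.1 a)).2 (mem_filter.1 (mem_coe.1 b)).2
  rw [card_filter, sum_range_succ, sum_range_succ, sum_range_succ, sum_range_one, if_pos p0] at size
  have l4 : ∀ a ≤ (W K c).card, 2 ^ a - 1 ∈ [0, 1, 3, 7] := fun a h =>
    mem_opts (b := true) (by have := H.deg c; omega) (by simp)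
  have fin : ∀ B k : ℕ, (Qt K cl c).card ≤ B → B ^ 2 ≤ 10 ^ k →
      k ≤ (univ.filter fun z => cl z = c).card →
      (Qt K cl c).card ^ 2 ≤ 10 ^ (univ.filter fun z => cl z = c).card := fun B k a b d =>
    ((Nat.pow_le_pow_left a 2).trans b).trans (Nat.pow_le_pow_right (by decide) d)
  by_cases p1 : pr 1 <;> by_cases p2 : pr 2 <;> by_cases p3 : pr 3 <;>
    simp only [p1, p2, p3, if_true, if_false, decide_true, decide_false] at size F
  · exact fin _ 4 (F _ _ l4 c7) (by decide) size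
  · exact fin _ 3 (F _ _ l4 c4) (by decide) size
  · exact fin _ 3 (F _ _ l4 c5) (by decide) size
  · exact fin _ 2 (F _ _ l4 c1) (by decide) size
  · exact fin _ 3 (F _ _ l4 c6) (by decide) size
  · exact fin _ 2 (F _ _ l4 c2) (by decide) size
  · exact fin _ 2 (F _ _ l4 c3) (by decide) size
  · refine fin _ 1 (F _ _ (fun a h => ?_) c0) (by decide) size
    have h1 : (W K c).card ≠ 3 := fun h => by
      obtain ⟨z, z1, z2⟩ := hs h
      obtain ⟨i, i1, i2, i3⟩ := surj z z2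
      have h2 : i = 0 ∨ i = 1 ∨ i = 2 ∨ i = 3 := by omega
      rcases h2 with rfl | rfl | rfl | rfl
      · exact z1 (i3.symm.trans w0)
      · exact p1 i2
      · exact p2 i2
      · exact p3 i2
    have h2 := H.deg c
    have h3 : a = 0 ∨ a = 1 ∨ a = 2 := by omega
    rcases h3 with rfl | rfl | rfl <;> decide

theorem split (H : Net K) (cl : Fin n → Fin n) :
    (univ.filter (Low (univ : Finset P))).card ^ 2 ≤ ∏ c, (Qt K cl c).card := by
  let fib : Fin n → Finset P → Finset (Finset P) := fun k A =>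
    (Gt K cl k).powerset.filter fun X => Low (Gt K cl k) X ∧ X ∩ Ut K cl = A ∩ Gt K cl k
  have h1 := finner (Gt K cl) (Ut K cl) (fun i hi => by
      obtain ⟨a, a1, b, b1, h⟩ := (mem_filter.1 hi).2
      refine ⟨cl a, cl b, h, fun k => ⟨fun hk => ?_, ?_⟩⟩
      · obtain ⟨z, z1, rfl⟩ := (mem_filter.1 hk).2
        by_cases e : a = z
        · exact Or.inl (e ▸ rfl)
        · exact Or.inr (congrArg cl (third (H.two i) a1 z1 b1 e fun e' => h (e' ▸ rfl)))
      · rintro (rfl | rfl)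
        · exact mem_filter.2 ⟨mem_univ _, a, a1, rfl⟩
        · exact mem_filter.2 ⟨mem_univ _, b, b1, rfl⟩)
    (fun k A => ((fib k A).card : ℝ) ^ 2) (fun _ _ => sq_nonneg _)
    (fun k i A hi => by simp only [fib, insert_inter_of_notMem hi])
  have h2 : (univ.filter (Low (univ : Finset P))).card ≤
      ∑ A ∈ (Ut K cl).powerset, ∏ k, (fib k A).card := by
    rw [card_eq_sum_card_fiberwise (f := fun X => X ∩ Ut K cl) (t := (Ut K cl).powerset)
      fun X _ => mem_coe.2 (mem_powerset.2 inter_subset_right)]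
    refine sum_le_sum fun A _ => ?_
    rw [← Fintype.card_piFinset]
    refine card_le_card_of_injOn (fun X k => X ∩ Gt K cl k) (fun X hX => ?_) fun X _ Y _ e => ?_
    · obtain ⟨a1, a2⟩ := mem_filter.1 (mem_coe.1 hX)
      refine mem_coe.2 (Fintype.mem_piFinset.2 fun k => mem_filter.2
        ⟨mem_powerset.2 inter_subset_right, fun r hr s hs h => mem_inter.2
          ⟨(mem_filter.1 a1).2 r (mem_univ _) s (mem_inter.1 hs).1 h, hr⟩, ?_⟩)
      rw [← a2, inter_right_comm]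
    · ext r
      obtain ⟨z, hz⟩ := card_pos.1 (by rw [H.two r]; decide : 0 < (K r).card)
      have h : r ∈ Gt K cl (cl z) := mem_filter.2 ⟨mem_univ _, z, hz, rfl⟩
      have e' : X ∩ Gt K cl (cl z) = Y ∩ Gt K cl (cl z) := congrFun e (cl z)
      exact ⟨fun a => (mem_inter.1 (e' ▸ mem_inter.2 ⟨a, h⟩)).1,
        fun a => (mem_inter.1 (e'.symm ▸ mem_inter.2 ⟨a, h⟩)).1⟩
  have h3 : ∀ k, ∑ A ∈ (Ut K cl ∩ Gt K cl k).powerset, (fib k A).card ^ 2 ≤ (Qt K cl k).card := by
    intro k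
    rw [card_eq_sum_card_fiberwise (f := fun x : Finset P × Finset P => x.1 ∩ Ut K cl)
      (s := Qt K cl k) (t := (Ut K cl ∩ Gt K cl k).powerset) fun x hx => mem_coe.2
        (mem_powerset.2 (subset_inter inter_subset_right (inter_subset_left.trans
          (mem_powerset.1 (mem_product.1 (mem_filter.1 (mem_coe.1 hx)).1).1))))]
    refine sum_le_sum fun A hA => ?_
    rw [sq, ← card_product]
    refine card_le_card fun x hx => ?_
    obtain ⟨a, b⟩ := mem_product.1 hx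
    obtain ⟨a1, a2, a3⟩ := mem_filter.1 a
    obtain ⟨b1, b2, b3⟩ := mem_filter.1 b
    exact mem_filter.2 ⟨mem_filter.2 ⟨mem_product.2 ⟨a1, b1⟩, a2, b2, a3.trans b3.symm⟩,
      a3.trans (inter_eq_left.2 ((mem_powerset.1 hA).trans inter_subset_right))⟩
  have h4 : ((univ.filter (Low (univ : Finset P))).card : ℝ) ≤ √(∏ c, ((Qt K cl c).card : ℝ)) := by
    refine (Nat.cast_le.2 h2).trans (le_trans (le_of_eq ?_) (h1.trans (Real.sqrt_le_sqrt
      (prod_le_prod (fun k _ => sum_nonneg fun _ _ => sq_nonneg _) fun k _ => ?_))))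
    · rw [Nat.cast_sum]
      refine sum_congr rfl fun A _ => ?_
      rw [prod_pow, Real.sqrt_sq (prod_nonneg fun _ _ => Nat.cast_nonneg _), Nat.cast_prod]
    · exact_mod_cast h3 k
  have h5 := (Real.le_sqrt (Nat.cast_nonneg _) (prod_nonneg fun _ _ => Nat.cast_nonneg _)).1 h4
  exact_mod_cast h5

theorem core (H : Net K) : (univ.filter (Low (univ : Finset P))).card ^ 4 ≤ 10 ^ n := by
  have ex : ∀ m, ∃ z, (W K m).card = 3 → z ≠ m ∧ ∃ r, m ∈ K r ∧ z ∈ K r ∧ idx (W K m) r = 1 := by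
    intro m
    by_cases h : (W K m).card = 3
    · obtain ⟨r, a, b⟩ := idx_surj (H.ch m) (show 1 < (W K m).card by omega)
      obtain ⟨z, z1, z2⟩ := exists_mem_ne (by rw [H.two r]; decide : 1 < (K r).card) m
      exact ⟨z, fun _ => ⟨z2, r, mem_W.1 a, z1, b⟩⟩
    · exact ⟨m, fun h' => absurd h' h⟩
  choose f hf using ex
  obtain ⟨cl, s1, s2, s3⟩ := stars (fun m => (W K m).card = 3) f fun m h => (hf m h).1
  have h1 : ∀ c, (Qt K cl c).card ^ 2 ≤ 10 ^ (univ.filter fun z => cl z = c).card := by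
    intro c
    by_cases hc : cl c = c
    · refine cluster H cl c hc (fun h => s3 c h hc) fun z a b => ?_
      obtain ⟨d, e | ⟨e, e'⟩⟩ := s2 z (a ▸ b.symm)
      · obtain ⟨-, r, r1, r2, r3⟩ := hf z d
        exact ⟨d, r, r1, a ▸ e ▸ r2, Or.inl r3⟩
      · obtain ⟨-, r, r1, r2, r3⟩ := hf _ e
        exact ⟨d, r, e' ▸ r2, a ▸ r1, Or.inr (a ▸ r3)⟩
    · have e : Gt K cl c = ∅ := eq_empty_of_forall_notMem fun r hr => by
        obtain ⟨z, -, rfl⟩ := (mem_filter.1 hr).2
        exact hc (s1 z)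
      have e' : (Qt K cl c).card ≤ 1 := (card_filter_le _ _).trans (by simp [e])
      exact (pow_le_one₀ (Nat.zero_le _) e').trans (Nat.one_le_pow _ _ (by decide))
  have h2 : ∑ c, (univ.filter fun z => cl z = c).card = n := by
    rw [← card_eq_sum_card_fiberwise (f := cl) (s := univ) (t := univ) fun _ _ => mem_univ _,
      card_univ, Fintype.card_fin]
  calc _ = ((univ.filter (Low (univ : Finset P))).card ^ 2) ^ 2 := by rw [← pow_mul]
    _ ≤ (∏ c, (Qt K cl c).card) ^ 2 := Nat.pow_le_pow_left (split H cl) 2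
    _ ≤ ∏ c, 10 ^ (univ.filter fun z => cl z = c).card := by
      rw [← prod_pow]
      exact prod_le_prod' fun c _ => h1 c
    _ = 10 ^ n := by rw [prod_pow_eq_pow_sum, h2]

end

end Pool.Agent.MP_081e4c_co.T4
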