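import Pool.Agent.MP_081e4c_co.T4.Core

/-! Cutting every gate down to two wires. -/

open Finset

namespace Pool.Agent.MP_081e4c_co.T4

noncomputable section

open Classical

variable {P : Type*} [Fintype P] [PartialOrder P] {n : ℕ}

def Btw (x t y : P) : Prop := (x < t ∧ t < y) ∨ (y < t ∧ t < x)

def bad (M K : P → Finset (Fin n)) : Finset (P × P) :=
  univ.filter fun x => x.1 ≠ x.2 ∧ K x.1 = K x.2 ∧ (2 < (M x.1).card ∨ 2 < (M x.2).card) ∧
    ∀ t, Btw x.1 t x.2 → Disjoint (K t) (K x.1)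

theorem cut {M : P → Finset (Fin n)} (h2 : ∀ r, 2 ≤ (M r).card)
    (hch : ∀ m r s, m ∈ M r → m ∈ M s → r ≤ s ∨ s ≤ r) (hd : ∀ m, (W M m).card ≤ 3)
    (hr : ∀ r s m, r < s → (M r).card = 2 → M r = M s → m ∈ M r → (W M m).card = 3 →
      ∃ t, r < t ∧ t < s ∧ m ∈ M t) : ∃ K : P → Finset (Fin n), Net K := by
  choose K0 hK0 using fun r => exists_subset_card_eq (h2 r)
  obtain ⟨K, hK, hmin⟩ := exists_min_image (univ.filter fun K : P → Finset (Fin n) =>
    ∀ r, K r ⊆ M r ∧ (K r).card = 2) (fun K => (bad M K).card) ⟨K0, mem_filter.2 ⟨mem_univ _, hK0⟩⟩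
  have hK := (mem_filter.1 hK).2
  have switch : ∀ v s a b c, (v, s) ∈ bad M K → K v = {a, b} → a ≠ c → c ∈ M v → c ∉ K v →
      ∃ u, u ≠ v ∧ K u = {a, c} ∧ ∀ t, t ≠ v → Btw v t u → Disjoint (K t) {a, c} := by
    intro v s a b c hb e ac c1 c2
    obtain ⟨b1, b2, -, -⟩ := (mem_filter.1 hb).2
    have ha : a ∈ K v := e ▸ mem_insert_self _ _
    by_contra hc
    refine not_lt.2 (hmin (Function.update K v {a, c}) (mem_filter.2 ⟨mem_univ _, fun r => ?_⟩))
      (card_lt_card ⟨?_, fun h => ?_⟩)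
    · by_cases h : r = v
      · rw [h, Function.update_self]
        exact ⟨insert_subset ((hK v).1 ha) (singleton_subset_iff.2 c1), card_pair ac⟩
      · rw [Function.update_of_ne h]
        exact hK r
    · rintro ⟨x, y⟩ hx
      obtain ⟨x1, x2, x3, x4⟩ := (mem_filter.1 hx).2
      dsimp only at x1 x2 x3 x4
      by_cases p : x = v
      · subst p
        rw [Function.update_self, Function.update_of_ne x1.symm] at x2
        refine absurd ⟨y, x1.symm, x2.symm, fun t t1 t2 => ?_⟩ hc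
        have := x4 t t2
        rwa [Function.update_self, Function.update_of_ne t1] at this
      by_cases q : y = v
      · subst q
        rw [Function.update_self, Function.update_of_ne x1] at x2
        refine absurd ⟨x, x1, x2, fun t t1 t2 => ?_⟩ hc
        have := x4 t t2.symm
        rwa [Function.update_of_ne x1, Function.update_of_ne t1, x2] at this
      rw [Function.update_of_ne p, Function.update_of_ne q] at x2
      refine mem_filter.2 ⟨mem_univ _, x1, x2, x3, fun t t1 => ?_⟩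
      have x5 := x4 t t1
      rw [Function.update_of_ne p] at x5
      by_cases t2 : t = v
      · subst t2
        rw [Function.update_self] at x5
        have x6 : a ∉ K x := disjoint_left.1 x5 (mem_insert_self _ _)
        refine disjoint_left.2 fun z z1 z2 => ?_
        have x7 := three_lt_card_iff.2 ⟨t, s, x, y, mem_W.2 ((hK t).1 z1),
          mem_W.2 ((hK s).1 (b2 ▸ z1)), mem_W.2 ((hK x).1 z2), mem_W.2 ((hK y).1 (x2 ▸ z2)), b1,
          Ne.symm p, Ne.symm q, fun h => x6 (h ▸ b2 ▸ ha), fun h => x6 (x2 ▸ h ▸ b2 ▸ ha), x1⟩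
        exact not_le.2 x7 (hd z)
      · rwa [Function.update_of_ne t2] at x5
    · have h1 := (mem_filter.1 (h hb)).2.2.1
      dsimp only at h1 b1 b2
      rw [Function.update_self, Function.update_of_ne b1.symm, ← b2] at h1
      exact c2 (h1 ▸ mem_insert_of_mem (mem_singleton_self c))
  have nobad : ∀ v s, (v, s) ∈ bad M K → ¬ 2 < (M v).card := by
    intro v s hb h3
    obtain ⟨b1, b2, -, b4⟩ := (mem_filter.1 hb).2
    dsimp only at b1 b2 b4
    obtain ⟨a, b, ab, e⟩ := card_eq_two.1 (hK v).2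
    obtain ⟨c, c1, c2⟩ := exists_mem_notMem_of_card_lt_card ((hK v).2 ▸ h3 : (K v).card < (M v).card)
    have ha : a ∈ K v := e ▸ mem_insert_self _ _
    have hb' : b ∈ K v := e ▸ mem_insert_of_mem (mem_singleton_self b)
    obtain ⟨x, x1, x2, x3⟩ := switch v s a b c hb e (fun h => c2 (h ▸ ha)) c1 c2
    obtain ⟨y, y1, y2, y3⟩ := switch v s b a c hb (e.trans (pair_comm a b))
      (fun h => c2 (h ▸ hb')) c1 c2
    have ax : a ∈ K x := x2 ▸ mem_insert_self _ _
    have cx : c ∈ K x := x2 ▸ mem_insert_of_mem (mem_singleton_self c)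
    have by' : b ∈ K y := y2 ▸ mem_insert_self _ _
    have cy : c ∈ K y := y2 ▸ mem_insert_of_mem (mem_singleton_self c)
    have cmp : ∀ z r t, z ∈ M r → z ∈ M t → r ≠ t → r < t ∨ t < r := fun z r t h h' ne =>
      (hch z r t h h').imp (fun h => lt_of_le_of_ne h ne) fun h => lt_of_le_of_ne h ne.symm
    have xy : x ≠ y := fun h => by
      have h1 : a ∈ ({b, c} : Finset (Fin n)) := y2 ▸ h ▸ ax
      rcases mem_insert.1 h1 with h | h
      · exact ab h
      · exact c2 (mem_singleton.1 h ▸ ha)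
    have l1 := cmp a v s ((hK v).1 ha) ((hK s).1 (b2 ▸ ha)) b1
    have l2 := cmp a v x ((hK v).1 ha) ((hK x).1 ax) x1.symm
    have l3 := cmp b v y ((hK v).1 hb') ((hK y).1 by') y1.symm
    have l4 := cmp a s x ((hK s).1 (b2 ▸ ha)) ((hK x).1 ax) fun h => c2 (b2 ▸ h ▸ cx)
    have l5 := cmp b s y ((hK s).1 (b2 ▸ hb')) ((hK y).1 by') fun h => c2 (b2 ▸ h ▸ cy)
    have l6 := cmp c x y ((hK x).1 cx) ((hK y).1 cy) xy
    have n1 : ¬ Btw v x s := fun h => disjoint_left.1 (b4 x h) ax ha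
    have n2 : ¬ Btw v y s := fun h => disjoint_left.1 (b4 y h) by' hb'
    have n3 : ¬ Btw v s x := fun h => disjoint_left.1 (x3 s b1.symm h) (b2 ▸ ha) (x2 ▸ ax)
    have n4 : ¬ Btw v y x := fun h => disjoint_left.1 (x3 y y1 h) cy (x2 ▸ cx)
    have n5 : ¬ Btw v s y := fun h => disjoint_left.1 (y3 s b1.symm h) (b2 ▸ hb') (y2 ▸ by')
    have n6 : ¬ Btw v x y := fun h => disjoint_left.1 (y3 x x1 h) cx (y2 ▸ cy)
    have up : ∀ p q, v < p → v < q → p < q ∨ q < p → ¬ Btw v p q → ¬ Btw v q p → False :=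
      fun p q a b c d e => c.elim (fun h => d (Or.inl ⟨a, h⟩)) fun h => e (Or.inl ⟨b, h⟩)
    have dn : ∀ p q, p < v → q < v → p < q ∨ q < p → ¬ Btw v p q → ¬ Btw v q p → False :=
      fun p q a b c d e => c.elim (fun h => e (Or.inr ⟨h, b⟩)) fun h => d (Or.inr ⟨h, a⟩)
    rcases l1 with l1 | l1 <;> rcases l2 with l2 | l2
    · exact up s x l1 l2 l4 n3 n1
    · exact l3.elim (fun l3 => up s y l1 l3 l5 n5 n2) fun l3 => dn x y l2 l3 l6 n6 n4
    · exact l3.elim (fun l3 => up x y l2 l3 l6 n6 n4) fun l3 => dn s y l1 l3 l5 n5 n2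
    · exact dn s x l1 l2 l4 n3 n1
  have sub : ∀ m, W K m ⊆ W M m := fun m r h => mem_W.2 ((hK r).1 (mem_W.1 h))
  refine ⟨K, fun r => (hK r).2, fun m r s a b => hch m r s ((hK r).1 a) ((hK s).1 b),
    fun m => (card_le_card (sub m)).trans (hd m), fun r s m rs e a b => ?_⟩
  by_cases big : 2 < (M r).card ∨ 2 < (M s).card
  · by_contra hc
    have h1 : ∀ t, Btw r t s → Disjoint (K t) (K r) := fun t h => by_contra fun h' =>
      h.elim (fun h => hc ⟨t, h.1, h.2, h'⟩) fun h => lt_asymm rs (h.1.trans h.2)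
    rcases big with h | h
    · exact nobad r s (mem_filter.2 ⟨mem_univ _, rs.ne, e, Or.inl h, h1⟩) h
    · exact nobad s r (mem_filter.2 ⟨mem_univ _, rs.ne', e.symm, Or.inl h,
        fun t h' => e ▸ h1 t h'.symm⟩) h
  · rw [not_or, not_lt, not_lt] at big
    have e1 : K r = M r := eq_of_subset_of_card_le (hK r).1 ((hK r).2 ▸ big.1)
    have e2 : K s = M s := eq_of_subset_of_card_le (hK s).1 ((hK s).2 ▸ big.2)
    have e3 : W K m = W M m := eq_of_subset_of_card_le (sub m) (b ▸ hd m)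
    obtain ⟨t, t1, t2, t3⟩ := hr r s m rs (e1 ▸ (hK r).2) (e1 ▸ e2 ▸ e) (e1 ▸ a) (e3 ▸ b)
    exact ⟨t, t1, t2, fun h => disjoint_left.1 h (mem_W.1 (e3 ▸ mem_W.2 t3)) a⟩

end

end Pool.Agent.MP_081e4c_co.T4
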