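import Mathlib.Data.Set.Card
import Pool.Agent.MP_081e4c_co.Defs

namespace Pool.Agent.MP_081e4c_co

/-- Every man has at most four stable partners (no condition on the women). -/
def MenFourPartners {n : ℕ} (pm pw : Fin n → Equiv.Perm (Fin n)) : Prop :=
  ∀ m, {w | ∃ M, IsStable pm pw M ∧ M m = w}.ncard ≤ 4

end Pool.Agent.MP_081e4c_co
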