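import Pool.Agent.MP_081e4c_co.T4.Cut
import Pool.Agent.MP_081e4c_co.T4.Defs
import Pool.Agent.MP_081e4c_co.T3.Fin

/-! At most four stable partners for each man: the bound `10 ^ (n / 4)` and its sharpness. -/

open Finset Function

namespace Pool.Agent.MP_081e4c_co.T4

open OC

section

open Classical

variable {n : ℕ} {pm pw : Fin n → Equiv.Perm (Fin n)}

theorem partners {m : Fin n} {r : Irr pm pw} (hr : m ∈ men lo hi r) :
    ∃ u : Irr pm pw, u ≤ r ∧ m ∈ men lo hi u ∧
      (insert (lo u m) ((W (men (lo (pm := pm) (pw := pw)) hi) m).image fun t => hi t m)).card =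
        (W (men (lo (pm := pm) (pw := pw)) hi) m).card + 1 ∧
      ((insert (lo u m) ((W (men (lo (pm := pm) (pw := pw)) hi) m).image fun t => hi t m) :
        Finset (Fin n)) : Set (Fin n)) ⊆ {w | ∃ M, IsStable pm pw M ∧ M m = w} := by
  obtain ⟨u, u1, u2⟩ := Finite.exists_le_minimal (p := fun t : Irr pm pw => m ∈ men lo hi t) hr
  refine ⟨u, u1, u2.1, ?_, fun x hx => ?_⟩
  · rw [card_insert_of_notMem, card_image_of_injOn]
    · intro s hs t ht e
      by_contra hne
      have a1 := mem_W.1 (mem_coe.1 hs)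
      have a2 := mem_W.1 (mem_coe.1 ht)
      rcases sideM.chain s t m a1 a2 with h | h
      · exact (sideM.new s t m (lt_of_le_of_ne h hne) a1 a2).1 e.symm
      · exact (sideM.new t s m (lt_of_le_of_ne h (Ne.symm hne)) a2 a1).1 e
    · intro h
      obtain ⟨t, t1, t2⟩ := mem_image.1 h
      have a1 := mem_W.1 t1
      rcases ((sideM.chain u t m u2.1 a1).elim id (u2.2 a1)).eq_or_lt with e | e
      · exact mem_men.1 a1 (e ▸ t2.symm)
      · exact (sideM.new u t m e u2.1 a1).2 t2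
  · rcases mem_insert.1 (mem_coe.1 hx) with rfl | h
    · exact ⟨_, (low u).2, rfl⟩
    · obtain ⟨t, -, rfl⟩ := mem_image.1 h
      exact ⟨_, t.1.2, rfl⟩

theorem net (H : MenFourPartners pm pw) : ∃ K : Irr pm pw → Finset (Fin n), Net K := by
  refine cut (M := men lo hi) (fun r => two_le (sideM.ne r))
    (fun m r s => sideM.chain r s m) (fun m => ?_) fun r s m rs h2 e hr h3 => ?_
  · rcases (W (men (lo (pm := pm) (pw := pw)) hi) m).eq_empty_or_nonempty with h | ⟨r, h⟩
    · rw [h]; exact Nat.zero_le _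
    · obtain ⟨u, -, -, u3, u4⟩ := partners (mem_W.1 h)
      have h1 := (Set.ncard_le_ncard u4).trans (H m)
      rw [Set.ncard_coe_finset] at h1
      omega
  · have hs : m ∈ men lo hi s := e ▸ hr
    by_contra hc
    have a1 := T3.lo_lt hr
    have a2 : pm m (hi r m) ≤ pm m (lo s m) := le_low s rs m
    have a3 := T3.lo_lt hs
    have link : lo s m = hi r m := by
      obtain ⟨u, u1, u2, u3, u4⟩ := partners hr
      have h1 := Set.eq_of_subset_of_ncard_le u4
        (by rw [Set.ncard_coe_finset, u3, h3]; exact H m)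
      have h4 : lo s m ∈ {w | ∃ M, IsStable pm pw M ∧ M m = w} := ⟨_, (low s).2, rfl⟩
      rw [← h1] at h4
      rcases mem_insert.1 (mem_coe.1 h4) with h | h
      · have b1 := T3.lo_lt u2
        have b2 : pm m (hi u m) ≤ pm m (hi r m) := (show u.1 ≤ r.1 from u1) m
        rw [h] at a2
        exact absurd (b1.trans_le b2) (not_lt.2 a2)
      · obtain ⟨t, t1, t2⟩ := mem_image.1 h
        have ht := mem_W.1 t1
        rcases sideM.chain t r m ht hr with h | h
        · have b2 : pm m (hi t m) ≤ pm m (hi r m) := (show t.1 ≤ r.1 from h) m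
          exact (pm m).injective (le_antisymm (t2 ▸ b2) a2)
        · rcases h.eq_or_lt with h | h
          · rw [← t2, h]
          · rcases sideM.chain s t m hs ht with h' | h'
            · have b2 : pm m (hi s m) ≤ pm m (hi t m) := (show s.1 ≤ t.1 from h') m
              rw [t2] at b2
              exact absurd a3 (not_lt.2 b2)
            · exact absurd ⟨t, h, lt_of_le_of_ne h' fun e' => mem_men.1 hs (e' ▸ t2.symm), ht⟩ hc
    obtain ⟨x, x1, x2⟩ := exists_mem_ne (by rw [h2]; decide : 1 < (men lo hi r).card) m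
    have pair : ∀ (u : Irr pm pw) (y z : Fin n), (men lo hi u).card = 2 → y ≠ z →
        y ∈ men lo hi u → z ∈ men lo hi u → hi u y = lo u z := fun u y z h1 h2 h3 h4 =>
      (Equiv.symm_apply_eq _).1 (third h1 h3 (T3.next_mem h3).1 h4 (T3.next_mem h3).2.symm h2)
    refine (sideM.new r s x rs x1 (e ▸ x1)).2 ?_
    rw [pair s x m (e ▸ h2) x2 (e ▸ x1) hs, link, pair r m x h2 x2.symm hr x1]

theorem upper (H : MenFourPartners pm pw) :
    Nat.card {M : Equiv.Perm (Fin n) // IsStable pm pw M} ^ 4 ≤ 10 ^ n := by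
  obtain ⟨K, hK⟩ := net H
  refine (Nat.pow_le_pow_left ?_ 4).trans (core hK)
  rw [← Fintype.card_coe, ← Nat.card_eq_fintype_card]
  have key : ∀ M N : St pm pw, (univ.filter fun r : Irr pm pw => r.1 ≤ M) =
      (univ.filter fun r : Irr pm pw => r.1 ≤ N) → M ≤ N := fun M N e => le_of_irr fun r hr =>
    (mem_filter.1 (e ▸ mem_filter.2 ⟨mem_univ r, hr⟩ :
      r ∈ univ.filter fun r : Irr pm pw => r.1 ≤ N)).2
  exact Nat.card_le_card_of_injective (α := St pm pw)
    (fun M => ⟨univ.filter fun r : Irr pm pw => r.1 ≤ M, mem_filter.2 ⟨mem_univ _,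
      fun r _ s hs h => mem_filter.2 ⟨mem_univ _, le_trans h (mem_filter.1 hs).2⟩⟩⟩)
    fun M N e => le_antisymm (key _ _ (congrArg Subtype.val e))
      (key _ _ (congrArg Subtype.val e).symm)

end

/-- rank functions with `c` stable matchings and short stable lists of the men -/
def Inst (ι : Type) (c : ℕ) : Prop :=
  ∃ (rm rw : ι → ι → ℕ) (s : Fin c → ι → ι) (B : ι → ι),
    (∀ m, Injective (rm m)) ∧ (∀ w, Injective (rw w)) ∧ Injective s ∧ (∀ i, Injective (s i)) ∧
    (∀ i m x, ¬ (rm m (s i x) < rm m (s i m) ∧ rw (s i x) m < rw (s i x) x)) ∧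
    ∀ m, rw (B m) m = 0 ∧ rm m (B m) ≤ 3

theorem inst0 : Inst (Fin 0) 1 :=
  ⟨fun _ _ => 0, fun _ _ => 0, fun _ => id, id, by decide⟩

theorem inst4 : Inst (Fin 4) 10 :=
  ⟨![![0, 1, 2, 3], ![1, 0, 3, 2], ![2, 3, 0, 1], ![3, 2, 1, 0]],
    ![![3, 2, 1, 0], ![2, 3, 0, 1], ![1, 0, 3, 2], ![0, 1, 2, 3]],
    ![![0, 1, 2, 3], ![0, 1, 3, 2], ![1, 0, 2, 3], ![1, 0, 3, 2], ![1, 3, 0, 2], ![2, 0, 3, 1],
    ![2, 3, 0, 1], ![2, 3, 1, 0], ![3, 2, 0, 1], ![3, 2, 1, 0]],
    ![3, 2, 1, 0], by decide +kernel⟩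

theorem Inst.map {ι κ : Type} {c : ℕ} (e : κ ≃ ι) (h : Inst ι c) : Inst κ c := by
  obtain ⟨rm, rw, s, B, h1, h2, h3, h4, h5, h7⟩ := h
  refine ⟨fun m w => rm (e m) (e w), fun w m => rw (e w) (e m), fun i m => e.symm (s i (e m)),
    fun m => e.symm (B (e m)), fun m => (h1 _).comp e.injective,
    fun m => (h2 _).comp e.injective, fun i j h => h3 (funext fun x => ?_),
    fun i => e.symm.injective.comp ((h4 i).comp e.injective), fun i m x => ?_, fun m => ?_⟩
  · simpa using congrFun h (e.symm x)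
  · simpa only [Equiv.apply_symm_apply] using h5 i (e m) (e x)
  · simpa only [Equiv.apply_symm_apply] using h7 (e m)

theorem Inst.add {a b c d : ℕ} (h : Inst (Fin a) c) (h' : Inst (Fin b) d) :
    Inst (Fin (a + b)) (c * d) := by
  obtain ⟨rm, rw, s, B, h1, h2, h3, h4, h5, h7⟩ := h
  obtain ⟨tm, tw, u, D, g1, g2, g3, g4, g5, g7⟩ := h'
  obtain ⟨K1, k1⟩ := T3.bound rm
  obtain ⟨K2, k2⟩ := T3.bound rw
  obtain ⟨K3, k3⟩ := T3.bound tm
  obtain ⟨K4, k4⟩ := T3.bound tw
  refine Inst.map finSumFinEquiv.symm ⟨T3.join (K1 + K3) rm tm, T3.join (K2 + K4) rw tw,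
    fun i => Sum.map (s (finProdFinEquiv.symm i).1) (u (finProdFinEquiv.symm i).2), Sum.map B D,
    T3.join_inj h1 g1 (fun m w => by have := k1 m w; omega) fun m w => by have := k3 m w; omega,
    T3.join_inj h2 g2 (fun m w => by have := k2 m w; omega) fun m w => by have := k4 m w; omega,
    fun i j h => finProdFinEquiv.symm.injective (Prod.ext
      (h3 (funext fun x => Sum.inl_injective (congrFun h (.inl x))))
      (g3 (funext fun x => Sum.inr_injective (congrFun h (.inr x))))),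
    fun i => (h4 _).sumMap (g4 _), ?_, ?_⟩
  · rintro i (m | m) (x | x) <;> simp only [Sum.map_inl, Sum.map_inr, T3.join]
    · exact h5 _ m x
    · have := k1 m (s (finProdFinEquiv.symm i).1 m); omega
    · have := k3 m (u (finProdFinEquiv.symm i).2 m); omega
    · exact g5 _ m x
  · rintro (w | w)
    · exact h7 w
    · exact g7 w

theorem inst : ∀ q, Inst (Fin (4 * q)) (10 ^ q)
  | 0 => inst0
  | q + 1 => (inst q).add inst4

theorem lower (q : ℕ) : ∃ pm pw : Fin (4 * q) → Equiv.Perm (Fin (4 * q)), MenFourPartners pm pw ∧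
    10 ^ q ≤ Nat.card {M : Equiv.Perm (Fin (4 * q)) // IsStable pm pw M} := by
  obtain ⟨rm, rw, s, B, h1, h2, h3, h4, h5, h7⟩ := inst q
  choose pm hm using fun m => T3.rank (h1 m)
  choose pw hw using fun w => T3.rank (h2 w)
  refine ⟨pm, pw, fun m => (Set.ncard_le_ncard_of_injOn (rm m) (t := Set.Iic 3) ?_ (h1 m).injOn
    (Set.finite_Iic 3)).trans_eq (Set.ncard_Iic_nat 3), ?_⟩
  · rintro w ⟨M, hM, rfl⟩
    by_contra hc
    rw [Set.mem_Iic] at hc
    have := (hw _ _ _).1 (OC.st_lt hM ((hm m (B m) (M m)).2 (by have := (h7 m).2; omega)))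
    have := (h7 m).1
    omega
  · let F : Fin (10 ^ q) → Equiv.Perm (Fin (4 * q)) := fun i =>
      Equiv.ofBijective (s i) (Finite.injective_iff_bijective.1 (h4 i))
    have hF : ∀ i, IsStable pm pw (F i) := by
      rintro i ⟨m, w, -, a, b⟩
      obtain ⟨x, rfl⟩ := (F i).surjective w
      rw [Equiv.symm_apply_apply] at b
      exact h5 i m x ⟨(hm _ _ _).1 a, (hw _ _ _).1 b⟩
    have := Nat.card_le_card_of_injective
      (fun i => (⟨F i, hF i⟩ : {M : Equiv.Perm (Fin (4 * q)) // IsStable pm pw M})) fun i j h =>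
        h3 (funext fun x => congrArg (fun M : {M // IsStable pm pw M} => M.1 x) h)
    rwa [Nat.card_eq_fintype_card, Fintype.card_fin] at this

theorem sharp (n : ℕ) :
    (∀ pm pw : Fin n → Equiv.Perm (Fin n), MenFourPartners pm pw →
      Nat.card {M : Equiv.Perm (Fin n) // IsStable pm pw M} ^ 4 ≤ 10 ^ n) ∧
    (4 ∣ n → ∃ pm pw : Fin n → Equiv.Perm (Fin n), MenFourPartners pm pw ∧
      Nat.card {M : Equiv.Perm (Fin n) // IsStable pm pw M} ^ 4 = 10 ^ n) := by
  refine ⟨fun _ _ => upper, ?_⟩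
  rintro ⟨q, rfl⟩
  obtain ⟨pm, pw, h1, h2⟩ := lower q
  refine ⟨pm, pw, h1, le_antisymm (upper h1) ?_⟩
  exact (pow_mul' 10 4 q).trans_le (Nat.pow_le_pow_left h2 4)

end Pool.Agent.MP_081e4c_co.T4
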